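import Pool.Agent.F2CG.CombU

set_option autoImplicit false

/-!
# Uniform multiplicative approximation for badly approximable vectors:
full Hausdorff dimension with uniform constants

`nrm x` is the distance to the nearest integer, `minProd ξ ζ Q` is the minimum of `‖qξ‖‖qζ‖` over
`1 ≤ q ≤ Q`, and `D ξ ζ = limsup Q * minProd ξ ζ Q` (all three from the library).
-/

namespace Pool.Agent.Results.MP_f2cfed_nt.UniformFullDimension

open Pool.Agent.F2CG Pool.Agent.Y754.GD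

theorem le_D (ξ ζ ε : ℝ)
    (h : ∀ N : ℕ, ∃ Q : ℕ, N ≤ Q ∧ 0 < Q ∧ ∀ q : ℕ, 0 < q → q ≤ Q →
      ε ≤ (Q:ℝ) * (nrm ((q:ℝ) * ξ) * nrm ((q:ℝ) * ζ))) : ε ≤ D ξ ζ := by
  refine Filter.le_limsup_of_frequently_le ?_ ?_
  · rw [Filter.frequently_atTop]
    intro N
    obtain ⟨Q, hQ1, hQ0, hQ2⟩ := h N
    refine ⟨Q, hQ1, ?_⟩
    have hQr : (0:ℝ) < Q := by exact_mod_cast hQ0
    have h1 : ε / Q ≤ minProd ξ ζ Q := by
      refine le_csInf ⟨_, ⟨1, ⟨le_rfl, hQ0⟩, rfl⟩⟩ ?_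
      rintro _ ⟨q, ⟨hq1, hq2⟩, rfl⟩
      rw [div_le_iff₀ hQr]
      have := hQ2 q hq1 hq2
      simp only
      linarith
    rw [div_le_iff₀ hQr] at h1
    linarith
  · refine ⟨1, ?_⟩
    rw [Filter.eventually_map]
    exact Filter.Eventually.of_forall (fun Q => bounded ξ ζ Q)

/-- **Full Hausdorff dimension with uniform constants, for countably many numbers at once.**
`√2` is badly approximable.  For every sequence `c k > 0` and every `s < 1` there are `ε k > 0` such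
that, for all `ζ k` with `q ‖q ζ k‖ ≥ c k` (`q ≥ 1`), all signs `σ k`, all reals `a k` and all
integers `C k` with `c k * 2 ^ C k > 2 ^ 20`, the set of the reals `ξ` with the following properties
for all `k` has Hausdorff dimension at least `s`: with `x = σ k * ξ + a k`, `z = ζ k`, `ε = ε k`,
`q ‖q x‖ ≥ ε` for all `q ≥ 1`; `√q max(‖q x‖, ‖q z‖) ≥ ε` for all `q ≥ 1`;
`Q ‖q x‖ ‖q z‖ ≥ ε` for all `Q = 16 ^ (C k * 5 ^ m)`, `m ≥ 0`, and all `1 ≤ q ≤ Q`; and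
`D x z ≥ ε`. -/
theorem result :
    (∃ c : ℝ, 0 < c ∧ ∀ q : ℕ, 0 < q → c ≤ q * nrm (q * Real.sqrt 2)) ∧
    ∀ (c : ℕ → ℝ) (s : ℝ), (∀ k, 0 < c k) → s < 1 → ∃ ε : ℕ → ℝ, (∀ k, 0 < ε k) ∧
      ∀ (C : ℕ → ℕ) (ζ σ a : ℕ → ℝ), (∀ k, 2 ^ 20 < c k * 2 ^ C k) →
        (∀ k, σ k = 1 ∨ σ k = -1) →
        (∀ k, ∀ q : ℕ, 0 < q → c k ≤ q * nrm (q * ζ k)) →
        ENNReal.ofReal s ≤ dimH {ξ : ℝ | ∀ k,
          (∀ q : ℕ, 0 < q → ε k ≤ q * nrm (q * (σ k * ξ + a k))) ∧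
          (∀ q : ℕ, 0 < q →
            ε k ≤ Real.sqrt q * max (nrm (q * (σ k * ξ + a k))) (nrm (q * ζ k))) ∧
          (∀ m q : ℕ, 0 < q → q ≤ 16 ^ (C k * 5 ^ m) →
            ε k ≤ 16 ^ (C k * 5 ^ m) * (nrm (q * (σ k * ξ + a k)) * nrm (q * ζ k))) ∧
          ε k ≤ D (σ k * ξ + a k) (ζ k)} := by
  refine ⟨sqrt_two_bad, ?_⟩
  intro c s hc hs1
  obtain ⟨s', hs'⟩ : ∃ s' : ℝ, s' = max s (1/2) := ⟨_, rfl⟩
  have hs'1 : s' < 1 := by rw [hs']; exact max_lt hs1 (by norm_num)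
  have hs'0 : 0 < s' := by rw [hs']; exact lt_max_of_lt_right (by norm_num)
  have hss' : s ≤ s' := by rw [hs']; exact le_max_left _ _
  obtain ⟨l, hl⟩ := exists_nat_gt (1/(1-s'))
  have hs : s' ≤ 1 - 1/(8*((l:ℝ)+1)) := by
    have h1 : 0 < 1 - s' := by linarith
    have h2 : 1 < (l:ℝ) * (1 - s') := by rwa [div_lt_iff₀ h1] at hl
    have h3 : 1/(8*((l:ℝ)+1)) ≤ 1 - s' := by
      rw [div_le_iff₀ (by positivity)]
      nlinarith [Nat.cast_nonneg (α := ℝ) l]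
    linarith
  obtain ⟨c1, ε1, κ1, hc1, hε1, hκ1, hU⟩ := fullU (fun k => min (c k) 1)
    (fun k => lt_min (hc k) one_pos) (fun k => min_le_right _ _) l s' hs'0 hs
  refine ⟨fun k => min (min (c1 k) (ε1 k)) (κ1 k),
    fun k => lt_min (lt_min (hc1 k) (hε1 k)) (hκ1 k), ?_⟩
  intro C ζ σ a hC hσ hζ
  have hc2 : ∀ k, c k ≤ 1 := by
    intro k
    have h := hζ k 1 one_pos
    have h2 := nrm_le_half (((1:ℕ):ℝ) * ζ k)
    simp only [Nat.cast_one, one_mul] at h h2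
    linarith
  have hmin : ∀ k, min (c k) 1 = c k := fun k => min_eq_left (hc2 k)
  have hC' : ∀ k, 2^20 / (fun k => min (c k) 1) k < (2:ℝ)^(C k) := by
    intro k
    simp only [hmin]
    rw [div_lt_iff₀ (hc k)]
    have := hC k
    linarith
  have hC1 : ∀ k, 1 ≤ C k := by
    intro k
    rcases Nat.eq_zero_or_pos (C k) with h | h
    · exfalso
      have h1 := hC k
      have h2 := hc2 k
      rw [h, pow_zero, mul_one] at h1
      linarith [show (1:ℝ) < 2^20 by norm_num]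
    · exact h
  have hbad : ∀ k, ∀ q p : ℤ, q ≠ 0 →
      (fun k => min (c k) 1) k ≤ |(q:ℝ)| * |(q:ℝ)*(ζ k) - p| := by
    intro k q p hq
    simp only [hmin]
    exact bad_intU (hζ k) q p hq
  refine (ENNReal.ofReal_le_ofReal hss').trans
    ((hU C hC' hC1 ζ σ a hσ hbad).trans (dimH_mono ?_))
  intro ξ hξ k
  obtain ⟨h1, h2, h3⟩ := hξ k
  have h4 : ∀ m q : ℕ, 0 < q → q ≤ 16 ^ (C k * 5 ^ m) →
      min (min (c1 k) (ε1 k)) (κ1 k) ≤ ((16 ^ (C k * 5 ^ m) : ℕ) : ℝ) *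
        (nrm (q * (σ k * ξ + a k)) * nrm (q * ζ k)) := fun m q hq hqQ =>
    ((min_le_left _ _).trans (min_le_right _ _)).trans
      (D_pos_ofU (hε1 k) (hC1 k) (lt_min (hc k) one_pos) (hbad k) h2 m q hq hqQ)
  refine ⟨fun q hq => ?_, fun q hq => ?_, fun m q hq hqQ => ?_, ?_⟩
  · exact ((min_le_left _ _).trans (min_le_left _ _)).trans (bad_ofU (hc1 k) h1 q hq)
  · exact (min_le_right _ _).trans (badVector_ofU (hκ1 k) h3 q hq)
  · have h5 := h4 m q hq hqQ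
    push_cast at h5
    exact h5
  · refine le_D _ _ _ (fun N => ⟨16 ^ (C k * 5 ^ N), ?_, by positivity, h4 N⟩)
    have h1 : N < 5^N := Nat.lt_pow_self (by norm_num)
    have h2 : 5^N ≤ C k*5^N := Nat.le_mul_of_pos_left _ (hC1 k)
    have h3 : C k*5^N < 16^(C k*5^N) := Nat.lt_pow_self (by norm_num)
    omega

end Pool.Agent.Results.MP_f2cfed_nt.UniformFullDimension
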